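import Pool.Agent.BPN.T.Stage
import Pool.Agent.BPN.L.ModP

/-!
# Invariance of the cyclicity condition (project BPN, module F/Cyc)
-/

namespace BPN

open GSp

variable {p n : ℕ} [Fact p.Prime] {Q : ∀ i : Fin (n + 1), Op p (2 * p ^ (i : ℕ) - 1)}

/-- `IsCyc` is carried along a map inducing isomorphisms in mod `p` cohomology (`u` on the source). -/
theorem IsCyc.push {G H : GSp} (c : Map G.U H)
    (hc : ∀ L : LSp (ZMod p), Function.Bijective
      (HC.pre c.toHom : HC H.U L.toG →+ HC G.U L.toG)) {u : Map G.U (EM (ZMod p) 0)}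
    (hu : IsCyc Q G u) : ∃ u' : Map H.U (EM (ZMod p) 0), IsCyc Q H u' := by
  have hb : ∀ k : ℤ, Function.Bijective
      (HC.pre c.toHom : HC H.U (EM (ZMod p) k) →+ HC G.U (EM (ZMod p) k)) :=
    fun k => hc (EML (ZMod p) (ZMod p) k)
  obtain ⟨ub, hub⟩ := (hb 0).2 (HC.mk u)
  obtain ⟨u', rfl⟩ := HC.mk_surj ub
  have h0 : HC.mk (Map.comp u' c) = HC.mk u := hub
  refine ⟨u', ⟨fun k x => ?_, fun k a => ?_⟩⟩
  · obtain ⟨a, ha⟩ := hu.gen k (Map.comp x c)
    refine ⟨a, (hb k).1 ?_⟩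
    change HC.mk (Map.comp (Map.comp a u') c) = HC.mk (Map.comp x c)
    rw [← Map.comp_assoc, ← HC.comp_mk, h0, HC.comp_mk, ha]
  · rw [← hu.rel k a, ← HC.mk_eq_zero, ← HC.mk_eq_zero]
    have h1 : HC.mk (Map.comp a u) = HC.pre c.toHom (HC.mk (Map.comp a u')) := by
      change HC.mk (Map.comp a u) = HC.mk (Map.comp (Map.comp a u') c)
      rw [← Map.comp_assoc, ← HC.comp_mk, ← HC.comp_mk, h0]
    rw [h1]
    constructor
    · intro h
      rw [h, map_zero]
    · intro h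
      exact (hb k).1 (by rw [h, map_zero])

/-- `IsCyc` is carried along a map inducing isomorphisms in mod `p` cohomology (`u` on the
target). -/
theorem IsCyc.pull {G H : GSp} (c : Map G.U H)
    (hc : ∀ L : LSp (ZMod p), Function.Bijective
      (HC.pre c.toHom : HC H.U L.toG →+ HC G.U L.toG)) {u : Map H.U (EM (ZMod p) 0)}
    (hu : IsCyc Q H u) : IsCyc Q G (Map.comp u c) := by
  have hb : ∀ k : ℤ, Function.Bijective
      (HC.pre c.toHom : HC H.U (EM (ZMod p) k) →+ HC G.U (EM (ZMod p) k)) :=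
    fun k => hc (EML (ZMod p) (ZMod p) k)
  refine ⟨fun k x => ?_, fun k a => ?_⟩
  · obtain ⟨yb, hyb⟩ := (hb k).2 (HC.mk x)
    obtain ⟨y, rfl⟩ := HC.mk_surj yb
    obtain ⟨a, ha⟩ := hu.gen k y
    refine ⟨a, ?_⟩
    rw [← hyb, ← ha]
    rfl
  · rw [← hu.rel k a, ← HC.mk_eq_zero, ← HC.mk_eq_zero]
    have h1 : HC.mk (Map.comp a (Map.comp u c)) = HC.pre c.toHom (HC.mk (Map.comp a u)) := rfl
    rw [h1]
    constructor
    · intro h
      exact (hb k).1 (by rw [h, map_zero])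
    · intro h
      rw [h, map_zero]

private theorem cyc_nsmul_f {X : PSp} {G : GSp} (m : ℕ) (a : Map X G) (q : ℤ) (x : X.X q) :
    (m • a).f q x = m • a.f q x := by
  induction m with
  | zero => rw [zero_smul, zero_smul]; rfl
  | succ m ih => rw [succ_nsmul, succ_nsmul, Map.add_f, ih]

private theorem cyc_p_smul {X : PSp} (k : ℤ) (x : HC X (EM (ZMod p) k)) : p • x = 0 := by
  obtain ⟨a, rfl⟩ := HC.mk_surj x
  rw [← map_nsmul]
  have h : p • a = 0 := Map.ext2 fun q x => by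
    rw [cyc_nsmul_f]
    refine Subtype.ext (funext fun f => ?_)
    have h1 : ((p • a.f q x : (EM (ZMod p) k).G q).1 : (ℕ → ℕ) → ZMod p) =
        p • (a.f q x).1 := AddSubmonoidClass.coe_nsmul (a.f q x : EMG (ZMod p) k q) p
    rw [h1, Pi.smul_apply, nsmul_eq_mul, CharP.cast_eq_zero, zero_mul]
    rfl
  rw [h, map_zero]

private theorem cyc_comp_nsmul {X : PSp} {G : GSp} {k : ℤ} (m : ℕ) (b : Map G.U (EM (ZMod p) k))
    (a : Map X G) : HC.mk (Map.comp (m • b) a) = m • HC.mk (Map.comp b a) := by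
  rw [← map_nsmul]
  congr 1
  refine Map.ext2 fun q x => ?_
  rw [cyc_nsmul_f]
  change (m • b).f q (a.f q x) = _
  rw [cyc_nsmul_f]
  rfl

private theorem cyc_comp_nsmul' {X : PSp} {G H : GSp} (m : ℕ) (b : Map G.U H)
    (a : Map X G) : HC.mk (Map.comp b (m • a)) = m • HC.mk (Map.comp b a) := by
  rw [← HC.comp_mk, map_nsmul, map_nsmul, HC.comp_mk]

/-- `IsCyc` does not change if the `Q_i` are multiplied by units.  PROOF: `mk (b ∘ (c • Q)) =
c • mk (b ∘ Q)` (`HC.comp` is additive), `p • mk = 0`, choose `d` with `c d ≡ 1`. -/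
theorem IsCyc.smul (c : Fin (n + 1) → ℕ) (hc : ∀ i, ¬ p ∣ c i) {G : GSp}
    {u : Map G.U (EM (ZMod p) 0)} (hu : IsCyc Q G u) : IsCyc (fun i => c i • Q i) G u := by
  refine ⟨hu.gen, fun k a => ?_⟩
  rw [hu.rel k a]
  have hp : p.Prime := Fact.out
  constructor
  · rintro ⟨b, hb⟩
    have h1 : ∀ i, ∃ d m : ℕ, c i * d = p * m + 1 := by
      intro i
      obtain ⟨d, hd⟩ := Nat.exists_mul_mod_eq_one_of_coprime
        ((Nat.Coprime.symm ((Nat.Prime.coprime_iff_not_dvd hp).mpr (hc i)))) hp.one_lt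
      refine ⟨d, c i * d / p, ?_⟩
      rw [← hd.2]
      exact (Nat.div_add_mod (c i * d) p).symm
    choose d m hdm using h1
    refine ⟨fun i => d i • b i, ?_⟩
    rw [hb]
    refine Finset.sum_congr rfl fun i _ => ?_
    rw [cyc_comp_nsmul', cyc_comp_nsmul, ← mul_smul, hdm, add_smul, one_smul,
      mul_comm p (m i), mul_smul, cyc_p_smul, smul_zero, zero_add]
  · rintro ⟨b, hb⟩
    refine ⟨fun i => c i • b i, ?_⟩
    rw [hb]
    refine Finset.sum_congr rfl fun i _ => ?_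
    rw [cyc_comp_nsmul', cyc_comp_nsmul]

end BPN
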