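import Pool.Agent.BPN.F.Zp
import Pool.Agent.BPN.T.Def

/-!
# The statement (project BPN, module F/Def)

Spectra are modelled by Kan's group spectra (`GSp`, D. M. Kan 1963); maps in the homotopy category
from `G` to `H` are represented by maps `Map G.U H` of the underlying pointed-set spectra (that is,
homomorphisms from the free group spectrum `F(U G)`, which is weakly equivalent to `G`).
-/

namespace BPN

open GSp

/-- `G` is connective: `π_q G = 0` for `q < 0`. -/
def Connective (G : GSp) : Prop := ∀ q, q < 0 → G.Vanish q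

/-- `G` and `H` are weakly equivalent: there is a zigzag `G ← E → H` of homomorphisms inducing
isomorphisms on all homotopy groups. -/
def WeakEquiv (G H : GSp) : Prop :=
  ∃ (E : GSp) (f : Hom E G) (g : Hom E H), (Map.ofHom f).WE ∧ (Map.ofHom g).WE

/-- The group `π_q (BP<n>) = Z_(p)[v_1, .., v_n]_q`: the free `Z_(p)`-module on the monomials in
`v_1, .., v_n` (`|v_i| = 2 (p^i - 1)`) of degree `q`. -/
abbrev BPnPi (p n : ℕ) [Fact p.Prime] (q : ℤ) : Type :=
  {I : Fin n → ℕ // ∑ i, (I i : ℤ) * (2 * ((p : ℤ) ^ ((i : ℕ) + 1) - 1)) = q} →₀ Zloc p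

/-- A map `c : G → H` is a `p`-completion (for spectra with finitely generated homotopy groups over
`Z_(p)`): the homotopy groups of `H` are `p`-adically complete and `c` induces isomorphisms
`π_q G / p^k ≅ π_q H / p^k` for all `q`, `k`. -/
def IsPCompletion (p : ℕ) {G H : GSp} (c : Map G.U H) : Prop :=
  ∀ q, IsAdicComplete (Ideal.span {(p : ℤ)}) (H.pi q) ∧ IsModIso p (c.pi q)

/-- `B` is a form of `BP<n>`: connective, `π_* B ≅ Z_(p)[v_1, .., v_n]` and
`H^*(B; F_p) ≅ A / A (Q_0, .., Q_n)`, where `Q_i` is the Milnor operation of degree `2 p^i - 1`,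
characterised (up to a nonzero scalar) as the nonzero primitive operation of this degree, i.e. the
nonzero operation which is a derivation for cup products. -/
def IsBPn (p n : ℕ) [Fact p.Prime] (B : GSp) : Prop :=
  Connective B ∧ (∀ q, Nonempty (B.pi q ≃+ BPnPi p n q)) ∧
  ∃ (Q : ∀ i : Fin (n + 1), Op p (2 * p ^ (i : ℕ) - 1)) (u : Map B.U (EM (ZMod p) 0)),
    (∀ i, ¬ (Q i).Null ∧ IsDeriv (Q i)) ∧ IsCyc Q B u

end BPN
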