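import Pool.Agent.BPN.F.Zp

/-!
# Completions of finitely generated free `Z_(p)`-modules (project BPN, module F/Zq)

All statements follow from `exists_coord`: `A ≅ Z_p^ι`, `β` is the standard embedding of
`Z_(p)^ι`.
-/

namespace BPN

variable {p : ℕ} [Fact p.Prime] {ι : Type} [Fintype ι] {A : Type} [AddCommGroup A]

/-! Auxiliary facts. -/

section gen

variable {R M : Type} [CommRing R] [AddCommGroup M] [Module R M]

private theorem gq_mem (π : R) (k : ℕ) (x : M) :
    x ∈ ((Ideal.span {π} : Ideal R) ^ k • ⊤ : Submodule R M) ↔ ∃ z : M, x = π ^ k • z := by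
  rw [Ideal.span_singleton_pow, Submodule.ideal_span_singleton_smul,
    Submodule.mem_smul_pointwise_iff_exists]
  constructor
  · rintro ⟨z, -, rfl⟩
    exact ⟨z, rfl⟩
  · rintro ⟨z, rfl⟩
    exact ⟨z, Submodule.mem_top, rfl⟩

private theorem gq_haus (π : R) (hH : IsHausdorff (Ideal.span {π} : Ideal R) M) {y : M}
    (h : ∀ k : ℕ, ∃ z : M, y = π ^ k • z) : y = 0 := by
  apply hH.haus y
  intro k
  rw [SModEq.zero, gq_mem]
  exact h k

private theorem gq_prec (π : R) (hP : IsPrecomplete (Ideal.span {π} : Ideal R) M) (f : ℕ → M)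
    (h : ∀ k : ℕ, ∃ z : M, f (k + 1) = f k + π ^ k • z) :
    ∃ L : M, ∀ k : ℕ, ∃ z : M, L = f k + π ^ k • z := by
  have h1 : ∀ m n, m ≤ n → ∃ z : M, f n = f m + π ^ m • z := by
    intro m n hmn
    induction n, hmn using Nat.le_induction with
    | base => exact ⟨0, by rw [smul_zero, add_zero]⟩
    | succ n hmn ih =>
      obtain ⟨z, hz⟩ := ih
      obtain ⟨z', hz'⟩ := h n
      refine ⟨z + π ^ (n - m) • z', ?_⟩
      rw [hz', hz, smul_add, ← mul_smul, ← pow_add, Nat.add_sub_cancel' hmn, add_assoc]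
  obtain ⟨L, hL⟩ := hP.prec (f := f) (fun {m n} hmn => by
    rw [SModEq.sub_mem, gq_mem]
    obtain ⟨z, hz⟩ := h1 m n hmn
    exact ⟨-z, by rw [hz, smul_neg]; abel⟩)
  refine ⟨L, fun k => ?_⟩
  have h2 := hL k
  rw [SModEq.sub_mem, gq_mem] at h2
  obtain ⟨z, hz⟩ := h2
  exact ⟨-z, by rw [smul_neg, ← hz]; abel⟩

end gen

private theorem apq (u : ℤ_[p]) (k : ℕ) :
    ∃ (n : ℕ) (w : ℤ_[p]), u = (n : ℤ_[p]) + (p : ℤ_[p]) ^ k * w := by
  have h := PadicInt.appr_spec k u
  rw [Ideal.mem_span_singleton] at h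
  obtain ⟨w, hw⟩ := h
  exact ⟨u.appr k, w, by rw [← hw]; ring⟩

private theorem apn (u : ℤ_[p]) (n : ℕ) (hn : 0 < n) :
    ∃ (m : ℕ) (w : ℤ_[p]), u = (m : ℤ_[p]) + (n : ℤ_[p]) * w := by
  have hn' : (n : ℤ_[p]) ≠ 0 := by exact_mod_cast hn.ne'
  have h1 := PadicInt.unitCoeff_spec hn'
  obtain ⟨m, w, hw⟩ := apq u (n : ℤ_[p]).valuation
  refine ⟨m, (↑(PadicInt.unitCoeff hn')⁻¹ : ℤ_[p]) * w, ?_⟩
  rw [hw]
  congr 1
  nth_rewrite 2 [h1]
  have h2 : (↑(PadicInt.unitCoeff hn') : ℤ_[p]) * (↑(PadicInt.unitCoeff hn')⁻¹ : ℤ_[p]) = 1 :=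
    Units.mul_inv _
  calc (p : ℤ_[p]) ^ (n : ℤ_[p]).valuation * w
      = ((↑(PadicInt.unitCoeff hn') : ℤ_[p]) * (↑(PadicInt.unitCoeff hn')⁻¹ : ℤ_[p])) *
          ((p : ℤ_[p]) ^ (n : ℤ_[p]).valuation * w) := by rw [h2, one_mul]
    _ = _ := by ring

private theorem ndq {q : ℚ} (hq : ‖(q : ℚ_[p])‖ ≤ 1) : ¬ p ∣ q.den :=
  (Rat.padicValuation_le_one_iff).1 ((Padic.norm_rat_le_one_iff_padicValuation_le_one p).1 hq)

section

variable [IsAdicComplete (Ideal.span {(p : ℤ)}) A] (β : (ι → Zloc p) →+ A) (hβ : IsModIso p β)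

include hβ

theorem coord_inj : Function.Injective β := by
  obtain ⟨e, he⟩ := exists_coord β hβ
  intro x x' h
  funext i
  apply Subtype.ext
  have h1 := he x i
  rw [h, he x' i] at h1
  exact (Rat.cast_injective h1).symm

theorem coord_tf (n : ℕ) (hn : 0 < n) (y : A) (h : n • y = 0) : y = 0 := by
  obtain ⟨e, he⟩ := exists_coord β hβ
  have h1 : n • e y = 0 := by rw [← map_nsmul, h, map_zero]
  have h2 : e y = 0 := by
    funext i
    have h3 := congrFun h1 i
    rw [Pi.smul_apply, nsmul_eq_mul, Pi.zero_apply] at h3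
    rcases mul_eq_zero.1 h3 with h4 | h4
    · exact absurd h4 (by exact_mod_cast hn.ne')
    · exact h4
  exact (map_eq_zero_iff e e.injective).1 h2

/-- The cokernel is divisible. -/
theorem coord_div (n : ℕ) (hn : 0 < n) (y : A) : ∃ (z : A) (x : ι → Zloc p), y = n • z + β x := by
  obtain ⟨e, he⟩ := exists_coord β hβ
  choose m w hmw using fun i => apn (e y i) n hn
  refine ⟨e.symm w, fun i => (m i : Zloc p), ?_⟩
  apply e.injective
  rw [map_add, map_nsmul, AddEquiv.apply_symm_apply]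
  funext i
  rw [hmw i, Pi.add_apply, Pi.smul_apply, nsmul_eq_mul, add_comm]
  congr 1
  apply Subtype.ext
  have h1 := he (fun i => (m i : Zloc p)) i
  rw [h1]
  push_cast
  rfl

/-- The cokernel is torsion free. -/
theorem coord_cok (n : ℕ) (hn : 0 < n) (y : A) (x : ι → Zloc p) (h : n • y = β x) :
    ∃ x' : ι → Zloc p, y = β x' := by
  obtain ⟨e, he⟩ := exists_coord β hβ
  have hn0 : (n : ℚ) ≠ 0 := by exact_mod_cast hn.ne'
  have hn1 : (n : ℚ_[p]) ≠ 0 := by exact_mod_cast hn.ne'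
  have h1 : ∀ i, (((x i : Zloc p) : ℚ) : ℚ_[p]) = (n : ℚ_[p]) * ((e y i : ℤ_[p]) : ℚ_[p]) := by
    intro i
    rw [← he x i, ← h, map_nsmul, Pi.smul_apply, nsmul_eq_mul]
    push_cast
    rfl
  have h2 : ∀ i, (((((x i : Zloc p) : ℚ) / (n : ℚ) : ℚ)) : ℚ_[p]) = ((e y i : ℤ_[p]) : ℚ_[p]) := by
    intro i
    push_cast
    rw [h1 i]
    field_simp
  have h3 : ∀ i, ¬ p ∣ (((x i : Zloc p) : ℚ) / (n : ℚ)).den := by
    intro i
    apply ndq (p := p)
    rw [h2 i]
    exact (e y i).2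
  refine ⟨fun i => ⟨((x i : Zloc p) : ℚ) / (n : ℚ), h3 i⟩, ?_⟩
  apply e.injective
  funext i
  apply Subtype.ext
  rw [he]
  exact (h2 i).symm

private theorem coord_quot :
    Nonempty ((A ⧸ (zsmulAddGroupHom ((p : ℤ)) : A →+ A).range) ≃+ (ι → ZMod p)) := by
  obtain ⟨e, he⟩ := exists_coord β hβ
  obtain ⟨g, hg⟩ : ∃ g : A →+ (ι → ZMod p), ∀ a i, g a i = PadicInt.toZMod (p := p) (e a i) :=
    ⟨{ toFun := fun a i => PadicInt.toZMod (p := p) (e a i)
       map_zero' := by funext i; simp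
       map_add' := fun a b => by funext i; simp }, fun _ _ => rfl⟩
  have hs : Function.Surjective g := by
    intro c
    choose m hm using fun i => ZMod.natCast_zmod_surjective (c i)
    refine ⟨e.symm (fun i => (m i : ℤ_[p])), ?_⟩
    funext i
    rw [hg, AddEquiv.apply_symm_apply, map_natCast, hm]
  have hk : (zsmulAddGroupHom ((p : ℤ)) : A →+ A).range = g.ker := by
    ext a
    rw [AddMonoidHom.mem_range, AddMonoidHom.mem_ker]
    constructor
    · rintro ⟨b, rfl⟩
      rw [zsmulAddGroupHom_apply, map_zsmul]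
      funext i
      rw [Pi.smul_apply, zsmul_eq_mul]
      simp
    · intro h
      have h1 : ∀ i, ∃ w : ℤ_[p], e a i = (p : ℤ_[p]) * w := by
        intro i
        have h2 := congrFun h i
        rw [hg, Pi.zero_apply, ← RingHom.mem_ker, PadicInt.ker_toZMod,
          PadicInt.maximalIdeal_eq_span_p, Ideal.mem_span_singleton] at h2
        exact h2
      choose w hw using h1
      refine ⟨e.symm w, ?_⟩
      rw [zsmulAddGroupHom_apply]
      apply e.injective
      rw [map_zsmul, AddEquiv.apply_symm_apply]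
      funext i
      rw [hw i, Pi.smul_apply, zsmul_eq_mul]
      push_cast
      rfl
  exact ⟨(QuotientAddGroup.quotientAddEquivOfEq hk).trans
    (QuotientAddGroup.quotientKerEquivOfSurjective g hs)⟩

theorem coord_card : Nat.card (A ⧸ (zsmulAddGroupHom ((p : ℤ)) : A →+ A).range) =
    p ^ Fintype.card ι := by
  obtain ⟨e⟩ := coord_quot β hβ
  rw [Nat.card_congr e.toEquiv, Nat.card_pi]
  simp

theorem coord_fin : Finite (A ⧸ (zsmulAddGroupHom ((p : ℤ)) : A →+ A).range) := by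
  obtain ⟨e⟩ := coord_quot β hβ
  haveI : NeZero p := ⟨(Fact.out : p.Prime).ne_zero⟩
  exact Finite.of_equiv _ e.toEquiv.symm

end

/-- An endomorphism congruent to the identity is an automorphism.  PROOF: `F = id + p ψ`, `ψ` additive as
`A` is torsion free; injective: `F x = 0` gives `x = - p ψ x`, `F (ψ x) = 0` and so on, `x ∈ ⋂ p^N A = 0`;
surjective: iterate `x ↦ z - p ψ x`. -/
theorem bij_of_congr [IsAdicComplete (Ideal.span {(p : ℤ)}) A]
    (tf : ∀ x : A, (p : ℤ) • x = 0 → x = 0) (F : A →+ A)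
    (hF : ∀ x, ∃ y, F x = x + (p : ℤ) • y) : Function.Bijective F := by
  choose ψ hψ using hF
  have hadd : ∀ x y, ψ (x + y) = ψ x + ψ y := by
    intro x y
    rw [← sub_eq_zero]
    apply tf
    have h1 := hψ (x + y)
    rw [map_add, hψ x, hψ y] at h1
    rw [smul_sub, smul_add, sub_eq_zero]
    have h2 : x + y + ((p : ℤ) • ψ x + (p : ℤ) • ψ y) = x + y + (p : ℤ) • ψ (x + y) := by
      rw [← h1]; abel
    exact (add_left_cancel h2).symm
  obtain ⟨T, hT⟩ : ∃ T : A →+ A, ∀ x, F x = x - (p : ℤ) • T x :=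
    ⟨-(AddMonoidHom.mk' ψ hadd), fun x => by
      rw [hψ x, AddMonoidHom.neg_apply, AddMonoidHom.mk'_apply, smul_neg, sub_neg_eq_add]⟩
  constructor
  · rw [injective_iff_map_eq_zero]
    intro x hx
    refine gq_haus (p : ℤ) inferInstance fun k => ?_
    have key : ∀ k : ℕ, ∃ z : A, x = (p : ℤ) ^ k • z ∧ F z = 0 := by
      intro k
      induction k with
      | zero => exact ⟨x, by rw [pow_zero, one_smul], hx⟩
      | succ k ih =>
        obtain ⟨z, hz, hFz⟩ := ih
        have h1 : z = (p : ℤ) • T z := by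
          rw [hT z, sub_eq_zero] at hFz
          exact hFz
        refine ⟨T z, ?_, ?_⟩
        · rw [pow_succ, mul_smul, ← h1]
          exact hz
        · apply tf
          rw [← map_zsmul, ← h1]
          exact hFz
    obtain ⟨z, hz, -⟩ := key k
    exact ⟨z, hz⟩
  · intro z
    obtain ⟨g, hg⟩ : ∃ g : ℕ → A, g 0 = z ∧ ∀ k, g (k + 1) = T (g k) :=
      ⟨fun k => (T^[k]) z, rfl, fun k => Function.iterate_succ_apply' _ _ _⟩
    obtain ⟨f, hf0, hf⟩ : ∃ f : ℕ → A, f 0 = 0 ∧ ∀ k, f (k + 1) = f k + (p : ℤ) ^ k • g k :=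
      ⟨fun k => ∑ i ∈ Finset.range k, (p : ℤ) ^ i • g i, by simp,
        fun k => Finset.sum_range_succ _ _⟩
    obtain ⟨L, hL⟩ := gq_prec (p : ℤ)
      (inferInstance : IsPrecomplete (Ideal.span {(p : ℤ)}) A) f (fun k => ⟨g k, hf k⟩)
    have key : ∀ k, F (f k) = z - (p : ℤ) ^ k • g k := by
      intro k
      induction k with
      | zero => rw [hf0, map_zero, hg.1, pow_zero, one_smul, sub_self]
      | succ k ih =>
        rw [hf, map_add, ih, map_zsmul, hT, hg.2, smul_sub, ← mul_smul, ← pow_succ]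
        abel
    refine ⟨L, ?_⟩
    rw [← sub_eq_zero]
    refine gq_haus (p : ℤ) inferInstance fun k => ?_
    obtain ⟨w, hw⟩ := hL k
    refine ⟨F w - g k, ?_⟩
    rw [hw, map_add, key, map_zsmul, smul_sub]
    abel

/-- An element divisible by all powers of `p` is `0`. -/
theorem eq_zero_of_div [IsAdicComplete (Ideal.span {(p : ℤ)}) A] (x : A)
    (h : ∀ N : ℕ, ∃ y : A, x = (p : ℤ) ^ N • y) : x = 0 :=
  gq_haus (p : ℤ) inferInstance h

/-- Transport of completeness. -/
theorem complete_of_equiv {B : Type} [AddCommGroup B] (e : A ≃+ B)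
    (h : IsAdicComplete (Ideal.span {(p : ℤ)}) A) : IsAdicComplete (Ideal.span {(p : ℤ)}) B := by
  haveI h1 : IsHausdorff (Ideal.span {(p : ℤ)}) B := by
    constructor
    intro x hx
    have h2 : e.symm x = 0 := by
      refine gq_haus (p : ℤ) inferInstance fun k => ?_
      have h3 := hx k
      rw [SModEq.zero, gq_mem] at h3
      obtain ⟨z, hz⟩ := h3
      exact ⟨e.symm z, by rw [hz, map_zsmul]⟩
    exact (map_eq_zero_iff e.symm e.symm.injective).1 h2
  haveI h2 : IsPrecomplete (Ideal.span {(p : ℤ)}) B := by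
    constructor
    intro f hf
    obtain ⟨L, hL⟩ := gq_prec (p : ℤ) (inferInstance : IsPrecomplete (Ideal.span {(p : ℤ)}) A)
      (fun k => e.symm (f k)) (fun k => by
        have h3 := hf (Nat.le_succ k)
        rw [SModEq.sub_mem, gq_mem] at h3
        obtain ⟨z, hz⟩ := h3
        refine ⟨-e.symm z, ?_⟩
        rw [smul_neg, ← map_zsmul, ← hz, map_sub]
        simp)
    refine ⟨e L, fun k => ?_⟩
    rw [SModEq.sub_mem, gq_mem]
    obtain ⟨z, hz⟩ := hL k
    refine ⟨-e z, ?_⟩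
    rw [hz, map_add, AddEquiv.apply_symm_apply, map_zsmul, smul_neg]
    abel
  exact { h1, h2 with }

/-- `IsModIso` composed with isomorphisms. -/
theorem IsModIso.comp_equiv {L L' A' : Type} [AddCommGroup L] [AddCommGroup L'] [AddCommGroup A']
    {f : L →+ A} (h : IsModIso p f) (e : L' ≃+ L) (e' : A ≃+ A') :
    IsModIso p ((e'.toAddMonoidHom.comp f).comp e.toAddMonoidHom) := by
  intro k
  constructor
  · rintro x ⟨y, hy⟩
    have hy' : e' (f (e x)) = (p : ℤ) ^ k • y := hy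
    obtain ⟨z, hz⟩ := (h k).1 (e x) ⟨e'.symm y, by
      apply e'.injective
      rw [hy', map_zsmul, AddEquiv.apply_symm_apply]⟩
    refine ⟨e.symm z, ?_⟩
    apply e.injective
    rw [hz, map_zsmul, AddEquiv.apply_symm_apply]
  · intro y
    obtain ⟨x, z, hz⟩ := (h k).2 (e'.symm y)
    refine ⟨e.symm x, e' z, ?_⟩
    have h1 : (((e'.toAddMonoidHom.comp f).comp e.toAddMonoidHom) (e.symm x)) = e' (f x) := by
      change e' (f (e (e.symm x))) = _
      rw [AddEquiv.apply_symm_apply]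
    rw [h1, ← map_zsmul, ← map_add, ← hz, AddEquiv.apply_symm_apply]

end BPN
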