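import Pool.Agent.BPN.T.Open
import Pool.Agent.BPN.F.Zq
import Pool.Agent.BPN.F.Def

/-!
# Moving one lattice onto the other (project BPN, module F/Lat)
-/

namespace BPN

open GSp

private theorem coef_ge (p : ℕ) [Fact p.Prime] (i : ℕ) : (1 : ℤ) ≤ (p : ℤ) ^ (i + 1) - 1 := by
  have h1 : 2 ≤ p := (Fact.out : p.Prime).two_le
  have h2 : 2 ≤ p ^ (i + 1) := le_trans h1 (by
    calc p = p ^ 1 := (pow_one p).symm
      _ ≤ p ^ (i + 1) := Nat.pow_le_pow_right (by omega) (by omega))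
  have h3 : (2 : ℤ) ≤ (p : ℤ) ^ (i + 1) := by exact_mod_cast h2
  omega

/-- The index set of the monomials of degree `q` is finite. -/
instance BPnIdx_finite (p n : ℕ) [Fact p.Prime] (q : ℤ) :
    Finite {I : Fin n → ℕ // ∑ i, (I i : ℤ) * (2 * ((p : ℤ) ^ ((i : ℕ) + 1) - 1)) = q} := by
  have h : {I : Fin n → ℕ | ∑ i, (I i : ℤ) * (2 * ((p : ℤ) ^ ((i : ℕ) + 1) - 1)) = q} ⊆
      Set.Iic (fun _ => q.toNat) := by
    intro I hI i
    have hI' : ∑ i, (I i : ℤ) * (2 * ((p : ℤ) ^ ((i : ℕ) + 1) - 1)) = q := hI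
    have h0 : ∀ j ∈ (Finset.univ : Finset (Fin n)),
        0 ≤ (I j : ℤ) * (2 * ((p : ℤ) ^ ((j : ℕ) + 1) - 1)) := fun j _ => by
      have := coef_ge p j
      positivity
    have h1 := Finset.single_le_sum h0 (Finset.mem_univ i)
    rw [hI'] at h1
    have h2 := coef_ge p i
    have h3 : (I i : ℤ) ≤ q := by nlinarith [Int.natCast_nonneg (I i)]
    change I i ≤ q.toNat
    omega
  exact Set.Finite.subset (Set.finite_Iic _) h

/-- The index set is empty for odd or negative degrees. -/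
theorem BPnIdx_empty (p n : ℕ) [Fact p.Prime] (q : ℤ) (h : Odd q ∨ q < 0) :
    IsEmpty {I : Fin n → ℕ // ∑ i, (I i : ℤ) * (2 * ((p : ℤ) ^ ((i : ℕ) + 1) - 1)) = q} := by
  refine ⟨fun ⟨I, hI⟩ => ?_⟩
  have h1 : q = 2 * ∑ i, (I i : ℤ) * ((p : ℤ) ^ ((i : ℕ) + 1) - 1) := by
    rw [← hI, Finset.mul_sum]
    exact Finset.sum_congr rfl fun i _ => by ring
  have h2 : 0 ≤ ∑ i, (I i : ℤ) * ((p : ℤ) ^ ((i : ℕ) + 1) - 1) :=
    Finset.sum_nonneg fun i _ => by
      have := coef_ge p i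
      positivity
  rcases h with h | h
  · rw [h1] at h
    exact (Int.not_odd_iff_even.mpr (even_two_mul _)) h
  · omega

variable {p n : ℕ} [Fact p.Prime]

private noncomputable instance (q : ℤ) :
    Fintype {I : Fin n → ℕ // ∑ i, (I i : ℤ) * (2 * ((p : ℤ) ^ ((i : ℕ) + 1) - 1)) = q} :=
  Fintype.ofFinite _

/-- A basis of `π_q B`. -/
private theorem exists_basis {B : GSp} (eB : ∀ q, Nonempty (B.pi q ≃+ BPnPi p n q)) (q : ℤ) :
    Nonempty (({I : Fin n → ℕ // ∑ i, (I i : ℤ) * (2 * ((p : ℤ) ^ ((i : ℕ) + 1) - 1)) = q} →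
      Zloc p) ≃+ B.pi q) := by
  obtain ⟨e⟩ := eB q
  exact ⟨((Finsupp.linearEquivFunOnFinite ℤ (Zloc p) _).toAddEquiv.symm).trans e.symm⟩

private theorem modIso_comp {L L' A : Type} [AddCommGroup L] [AddCommGroup L'] [AddCommGroup A]
    {f : L →+ A} (h : IsModIso p f) (e : L' ≃+ L) :
    IsModIso p (f.comp e.toAddMonoidHom) := h.comp_equiv e (AddEquiv.refl A)

private theorem vanish_of_empty {B Y : GSp} (eB : ∀ q, Nonempty (B.pi q ≃+ BPnPi p n q))
    (b : Map B.U Y) (hb : IsPCompletion p b) (q : ℤ) (h : Odd q ∨ q < 0) : Y.Vanish q := by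
  haveI := BPnIdx_empty p n q h
  obtain ⟨e⟩ := exists_basis eB q
  haveI := (hb q).1
  rw [vanish_iff]
  intro y
  refine eq_zero_of_div (p := p) y fun N => ?_
  obtain ⟨x, z, hz⟩ := ((hb q).2 N).2 y
  refine ⟨z, ?_⟩
  have hx : x = 0 := by
    rw [← e.apply_symm_apply x, Subsingleton.elim (e.symm x) 0, map_zero]
  rw [hz, hx, map_zero, zero_add]

/-- Consequences of a completion `π_q B ≅ Z_(p)^r → π_q Y`: all hypotheses on `Y`. -/
theorem YHyp_of {B Y : GSp} (hY : Y.SBB) (eB : ∀ q, Nonempty (B.pi q ≃+ BPnPi p n q))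
    (b : Map B.U Y) (hb : IsPCompletion p b) : YHyp p Y ∧ RkHyp p n Y := by
  refine ⟨⟨hY, fun q hq => vanish_of_empty eB b hb q (Or.inl hq), fun q => (hb q).1,
    fun q => ?_, fun q x hx => ?_⟩, fun q => ?_⟩
  · obtain ⟨e⟩ := exists_basis eB q
    haveI := (hb q).1
    exact coord_fin _ (modIso_comp (hb q).2 e)
  · obtain ⟨e⟩ := exists_basis eB q
    haveI := (hb q).1
    refine coord_tf _ (modIso_comp (hb q).2 e) p (Fact.out : p.Prime).pos x ?_
    rw [← natCast_zsmul]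
    exact hx
  · obtain ⟨e⟩ := exists_basis eB q
    haveI := (hb q).1
    rw [coord_card _ (modIso_comp (hb q).2 e), rk, Nat.card_eq_fintype_card]

variable {Q : ∀ i : Fin (n + 1), Op p (2 * p ^ (i : ℕ) - 1)} (E : EOut p n Q) {Y : GSp}
  {v : Map Y.U (KS p n 0 0)} (hv : IsCycK Q Y v)

include E hv in
/-- One step: a self map, zero below degree `2 k`, which corrects the lattice in degree `2 k`.  PROOF:
`F.pi (2 k)` is an automorphism (`bij_of_congr`); `open_image_int` gives `N₀`; `density` with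
`N = N₀ + k + 1` gives `h`; realise `p^{N₀} h` in degree `2 k`, `0` below. -/
theorem lat_step (hY : YHyp p Y) (hr : RkHyp p n Y) {B X : GSp}
    (eB : ∀ q, Nonempty (B.pi q ≃+ BPnPi p n q)) (eX : ∀ q, Nonempty (X.pi q ≃+ BPnPi p n q))
    (b : Map B.U Y) (hb : IsPCompletion p b) (ξ : Map X.U Y) (hξ : IsPCompletion p ξ) (k : ℕ)
    (F : Map Y.U Y) (hF : ∀ q (x : Y.pi q), ∃ y, F.pi q x = x + (p : ℤ) • y) :
    ∃ g : Map Y.U Y, (∀ q : ℤ, q < 2 * k → ∀ x : Y.pi q, g.pi q x = 0) ∧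
      Set.range (fun x : B.pi (2 * k) => F.pi (2 * k) (b.pi (2 * k) x) +
        (p : ℤ) ^ (k + 1) • g.pi (2 * k) (b.pi (2 * k) x)) = Set.range (ξ.pi (2 * k)) := by
  obtain ⟨q, hq⟩ : ∃ q : ℤ, q = 2 * k := ⟨_, rfl⟩
  obtain ⟨N₀, hN⟩ := open_image_int E hv hY hr k
  obtain ⟨e⟩ := exists_basis eB (2 * k)
  obtain ⟨e'⟩ := exists_basis eX (2 * k)
  haveI := (hb (2 * k)).1
  have hbij := bij_of_congr (p := p) (hY.tf (2 * k)) (F.pi (2 * k)) (hF (2 * k))
  obtain ⟨h, hh⟩ := density _ _ (modIso_comp (hb (2 * k)).2 e) (modIso_comp (hξ (2 * k)).2 e')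
    (AddEquiv.ofBijective (F.pi (2 * k)) hbij) (N₀ + (k + 1))
  obtain ⟨g, hg⟩ := hN (Function.update (fun _ => 0) (2 * k) h)
  refine ⟨g, fun q hq x => ?_, ?_⟩
  · rw [hg q hq.le x, Function.update_of_ne hq.ne]
    exact smul_zero _
  · have hg2 : ∀ x, g.pi (2 * k) x = (p : ℤ) ^ N₀ • h x := fun x => by
      rw [hg _ le_rfl x, Function.update_self]
    have h2 : Set.range (((ξ.pi (2 * k)).comp e'.toAddMonoidHom)) =
        Set.range (ξ.pi (2 * k)) := by
      ext y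
      constructor
      · rintro ⟨x, rfl⟩
        exact ⟨e' x, rfl⟩
      · rintro ⟨x, rfl⟩
        exact ⟨e'.symm x, congrArg _ (e'.apply_symm_apply x)⟩
    rw [← h2, ← hh]
    ext y
    constructor
    · rintro ⟨x, rfl⟩
      refine ⟨e.symm x, Set.mem_univ _, ?_⟩
      have h3 : ((b.pi (2 * k)).comp e.toAddMonoidHom) (e.symm x) = b.pi (2 * k) x :=
        congrArg _ (e.apply_symm_apply x)
      change F.pi (2 * k) _ + _ = F.pi (2 * k) _ + _
      rw [h3, hg2, ← mul_smul, ← pow_add, add_comm (k + 1) N₀]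
    · rintro ⟨x, -, rfl⟩
      refine ⟨e x, ?_⟩
      change F.pi (2 * k) _ + _ = F.pi (2 * k) _ + _
      rw [hg2, ← mul_smul, ← pow_add, add_comm (k + 1) N₀]
      rfl

private def piEv {G H : GSp} (q : ℤ) (x : G.pi q) : Map G.U H →+ H.pi q :=
  AddMonoidHom.mk' (fun g => g.pi q x) (fun a b => Map.pi_add a b q x)

private theorem pi_zsmul' {G H : GSp} (m : ℤ) (g : Map G.U H) (q : ℤ) (x : G.pi q) :
    (m • g).pi q x = m • g.pi q x := map_zsmul (piEv q x) m g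

include E hv in
/-- **The lattices of `B` and `X` in `π_* Y` are conjugate under a self equivalence of `Y`.**  PROOF: let
`F₀ = id`, `F_{k+1} = F_k + p^{k+1} g_k`, `g_k` from `lat_step`; `exists_sum` for `id, g_0, g_1, ..` gives
`f`; in degree `2 k` it agrees with `F_{k+1}` because `g_j` is zero there for `j > k`
(`eq_zero_of_div`); odd and negative degrees are zero. -/
theorem exists_lat (hY : YHyp p Y) (hr : RkHyp p n Y) {B X : GSp}
    (eB : ∀ q, Nonempty (B.pi q ≃+ BPnPi p n q)) (eX : ∀ q, Nonempty (X.pi q ≃+ BPnPi p n q))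
    (b : Map B.U Y) (hb : IsPCompletion p b) (ξ : Map X.U Y) (hξ : IsPCompletion p ξ) :
    ∃ f : Map Y.U Y, f.WE ∧
      ∀ q, Set.range (fun x : B.pi q => f.pi q (b.pi q x)) = Set.range (ξ.pi q) := by
  have hstep := fun (k : ℕ) (F : {F : Map Y.U Y // ∀ q (x : Y.pi q),
      ∃ y, F.pi q x = x + (p : ℤ) • y}) =>
    lat_step E hv hY hr eB eX b hb ξ hξ k F.1 F.2
  choose nx hnx1 hnx2 using hstep
  let nxt : ℕ → {F : Map Y.U Y // ∀ q (x : Y.pi q), ∃ y, F.pi q x = x + (p : ℤ) • y} →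
      {F : Map Y.U Y // ∀ q (x : Y.pi q), ∃ y, F.pi q x = x + (p : ℤ) • y} := fun k F =>
    ⟨F.1 + (p : ℤ) ^ (k + 1) • nx k F, fun q x => by
      obtain ⟨y, hy⟩ := F.2 q x
      refine ⟨y + (p : ℤ) ^ k • (nx k F).pi q x, ?_⟩
      rw [Map.pi_add, pi_zsmul', hy, smul_add, ← mul_smul, ← pow_succ', add_assoc]⟩
  let Fs : ℕ → {F : Map Y.U Y // ∀ q (x : Y.pi q), ∃ y, F.pi q x = x + (p : ℤ) • y} := fun k =>
    Nat.rec ⟨Map.id Y, fun q x => ⟨0, by rw [Map.pi_id, smul_zero, add_zero]; rfl⟩⟩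
      (fun k F => nxt k F) k
  have hFs : ∀ k q (x : Y.pi q), (Fs (k + 1)).1.pi q x =
      (Fs k).1.pi q x + (p : ℤ) ^ (k + 1) • (nx k (Fs k)).pi q x := fun k q x => by
    change ((Fs k).1 + (p : ℤ) ^ (k + 1) • nx k (Fs k)).pi q x = _
    rw [Map.pi_add, pi_zsmul']
  let g : ℕ → Map Y.U Y := fun j => Nat.casesOn j (Map.id Y) (fun j => nx j (Fs j))
  obtain ⟨f, hf⟩ := exists_sum E hv hY g
  have hsum : ∀ k q (x : Y.pi q), ∑ j ∈ Finset.range (k + 1), (p : ℤ) ^ j • (g j).pi q x =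
      (Fs k).1.pi q x := by
    intro k q x
    induction k with
    | zero =>
      rw [Finset.sum_range_one, pow_zero, one_smul]
      rfl
    | succ k ih => rw [Finset.sum_range_succ, ih, hFs]
  refine ⟨f, fun q => ?_, fun q => ?_⟩
  · haveI := (hb q).1
    refine bij_of_congr (p := p) (hY.tf q) (f.pi q) fun x => ?_
    obtain ⟨y, hy⟩ := hf q x 1
    refine ⟨y, ?_⟩
    rw [hy, Finset.sum_range_one, pow_zero, one_smul, pow_one]
    change (Map.id Y).pi q x + _ = _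
    rw [Map.pi_id]
    rfl
  · by_cases hq : Odd q ∨ q < 0
    · have h0 := vanish_iff.mp (vanish_of_empty eB b hb q hq)
      ext y
      rw [h0 y]
      exact ⟨fun _ => ⟨0, map_zero _⟩, fun _ => ⟨0, h0 _⟩⟩
    · push Not at hq
      obtain ⟨k, rfl⟩ : ∃ k : ℕ, q = 2 * k := by
        obtain ⟨m, hm⟩ := Int.not_odd_iff_even.mp hq.1
        exact ⟨m.toNat, by omega⟩
      haveI := (hb (2 * k)).1
      have h1 : ∀ x : Y.pi (2 * k), f.pi (2 * k) x = (Fs (k + 1)).1.pi (2 * k) x := by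
        intro x
        rw [← sub_eq_zero]
        refine eq_zero_of_div (p := p) _ fun N => ?_
        obtain ⟨y, hy⟩ := hf (2 * k) x (k + 2 + N)
        refine ⟨(p : ℤ) ^ (k + 2) • y, ?_⟩
        have h2 : ∑ j ∈ Finset.range (k + 2 + N), (p : ℤ) ^ j • (g j).pi (2 * k) x =
            (Fs (k + 1)).1.pi (2 * k) x := by
          rw [Finset.sum_range_add, hsum (k + 1)]
          rw [Finset.sum_eq_zero, add_zero]
          intro j _
          have h3 : (g (k + 2 + j)).pi (2 * k) x = 0 := by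
            rw [show k + 2 + j = (k + 1 + j) + 1 by ring]
            exact hnx1 (k + 1 + j) (Fs (k + 1 + j)) (2 * k) (by push_cast; omega) x
          rw [h3, smul_zero]
        rw [hy, h2, add_sub_cancel_left, ← mul_smul, ← pow_add, add_comm N]
      rw [← hnx2 k (Fs k)]
      congr 1
      funext x
      rw [h1, hFs]

end BPN
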