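import Pool.Agent.BPN.F.Red

/-!
# The main theorem (project BPN)
-/

namespace BPN

open GSp

theorem Map.WE.exists_inv_we {G H : GSp} {c : Map G.U H} (hc : c.WE) :
    ∃ v : Map H.U G, v.WE ∧ HC.mk (Map.comp c v) = HC.mk (Map.id H) := by
  obtain ⟨v, h1, h2⟩ := hc.exists_inv
  exact ⟨v, ((Map.we_id G).congr h2.symm).of_comp_right hc, h1⟩

theorem vanish_of_we {G H : GSp} {c : Map G.U H} (hc : c.WE) {q : ℤ} (h : H.Vanish q) :
    G.Vanish q := by
  rw [vanish_iff] at h ⊢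
  intro x
  apply (hc q).1
  rw [map_zero]
  exact h _

theorem cover_sbb (G : GSp) : (G.cover 0).SBB := ⟨0, cover_below G 0⟩

/-- A weak equivalence induces isomorphisms in cohomology. -/
theorem IsBPn.of_we {p n : ℕ} [Fact p.Prime] {G H : GSp} (c : Map G.U H) (hc : c.WE)
    (h : IsBPn p n H) : IsBPn p n G := by
  obtain ⟨h1, h2, Q, u, hQ, hu⟩ := h
  refine ⟨fun q hq => vanish_of_we hc (h1 q hq), fun q => ?_, Q, _, hQ,
    IsCyc.pull c (fun L => hc.pre_bijective) hu⟩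
  obtain ⟨e⟩ := h2 q
  exact ⟨(AddEquiv.ofBijective (c.pi q) (hc q)).trans e⟩

/-- **`BP<n>` is determined by its `p`-completion.**  -/
theorem main (p : ℕ) [Fact p.Prime] (n : ℕ) (B X Z₁ Z₂ : GSp) (hB : IsBPn p n B)
    (hX : Connective X) (eX : ∀ q, Nonempty (X.pi q ≃+ BPnPi p n q))
    (b : Map B.U Z₁) (hb : IsPCompletion p b) (ξ : Map X.U Z₂) (hξ : IsPCompletion p ξ)
    (hZ : WeakEquiv Z₁ Z₂) : WeakEquiv X B := by
  obtain ⟨E, f, g, hf, hg⟩ := hZ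
  have cB : (Map.ofHom (B.coverI 0)).WE := coverI_we B 0 (fun q hq => hB.1 q hq)
  have cX : (Map.ofHom (X.coverI 0)).WE := coverI_we X 0 (fun q hq => hX q hq)
  have hZ1 : Connective Z₁ := IsPCompletion.connective hB.1 b hb
  have cE : (Map.ofHom (E.coverI 0)).WE :=
    coverI_we E 0 (fun q hq => vanish_of_we hf (hZ1 q hq))
  obtain ⟨v₁, hv₁, -⟩ := (hf.comp cE).exists_inv_we
  obtain ⟨v₂, hv₂, -⟩ := (hg.comp cE).exists_inv_we
  obtain ⟨w, hw, -⟩ := cB.exists_inv_we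
  obtain ⟨h, hh⟩ := main_sbb (p := p) (n := n) (cover_sbb B) (cover_sbb X) (cover_sbb E)
    (IsBPn.of_we _ cB hB) (fun q => by
      obtain ⟨e⟩ := eX q
      exact ⟨(AddEquiv.ofBijective _ (cX q)).trans e⟩)
    (Map.comp v₁ (Map.comp b (Map.ofHom (B.coverI 0)))) ((hb.we_comp cB).comp_we hv₁)
    (Map.comp v₂ (Map.comp ξ (Map.ofHom (X.coverI 0)))) ((hξ.we_comp cX).comp_we hv₂)
  exact weakEquiv_of_map (Map.comp (Map.ofHom (X.coverI 0)) (Map.comp h w))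
    (cX.comp (hh.comp hw))

end BPN
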