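import Pool.Agent.BPN.F.Lat
import Pool.Agent.BPN.F.Cyc
import Pool.Agent.BPN.R.Lift
import Pool.Agent.BPN.EThm

/-!
# Reductions (project BPN, module F/Red)
-/

namespace BPN

open GSp

variable {p n : ℕ} [Fact p.Prime]

theorem weakEquiv_of_map {B X : GSp} (h : Map B.U X) (hh : h.WE) : WeakEquiv X B := by
  refine ⟨B.U.F, h.ext', B.eps, ?_, B.eps_we⟩
  have h1 : Map.comp (Map.ofHom h.ext') (PSp.eta B.U) = h := h.post_ext'_eta
  have h2 : (Map.comp (Map.ofHom h.ext') (PSp.eta B.U)).WE := by rw [h1]; exact hh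
  exact h2.of_comp_right (GSp.eta_we B)

/-- A weak equivalence has an inverse which is a weak equivalence. -/
theorem red_inv {G H : GSp} {c : Map G.U H} (hc : c.WE) : ∃ v : Map H.U G, v.WE := by
  obtain ⟨v, hv, _⟩ := hc.exists_inv
  exact ⟨v, ((Map.we_id H).congr hv.symm).of_comp_left hc⟩

theorem exists_map_of_weakEquiv {G H : GSp} (h : WeakEquiv G H) :
    (∃ c : Map G.U H, c.WE) ∧ ∃ c : Map H.U G, c.WE := by
  obtain ⟨E, f, g, hf, hg⟩ := h
  obtain ⟨v, hv⟩ := red_inv hf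
  obtain ⟨w, hw⟩ := red_inv hg
  exact ⟨⟨Map.comp (Map.ofHom g) v, hg.comp hv⟩, ⟨Map.comp (Map.ofHom f) w, hf.comp hw⟩⟩

theorem IsPCompletion.comp_we {G H K : GSp} {c : Map G.U H} (hc : IsPCompletion p c)
    {d : Map H.U K} (hd : d.WE) : IsPCompletion p (Map.comp d c) := by
  intro q
  refine ⟨complete_of_equiv (AddEquiv.ofBijective (d.pi q) (hd q)) (hc q).1, ?_⟩
  have h1 := (hc q).2.comp_equiv (AddEquiv.refl _) (AddEquiv.ofBijective (d.pi q) (hd q))
  rw [Map.pi_comp]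
  exact h1

theorem IsPCompletion.we_comp {G H K : GSp} {c : Map H.U K} (hc : IsPCompletion p c)
    {d : Map G.U H} (hd : d.WE) : IsPCompletion p (Map.comp c d) := by
  intro q
  refine ⟨(hc q).1, ?_⟩
  have := (hc q).1
  have h1 := (hc q).2.comp_equiv (AddEquiv.ofBijective (d.pi q) (hd q)) (AddEquiv.refl _)
  rw [Map.pi_comp]
  exact h1

/-- Coordinates. -/
theorem red_coord {B Y : GSp} (eB : ∀ q, Nonempty (B.pi q ≃+ BPnPi p n q)) (b : Map B.U Y)
    (hb : IsPCompletion p b) (q : ℤ) :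
    ∃ (ι : Type) (_ : Fintype ι) (e : (ι → Zloc p) ≃+ B.pi q),
      IsModIso p ((b.pi q).comp e.toAddMonoidHom) := by
  classical
  obtain ⟨f⟩ := eB q
  have := Fintype.ofFinite
    {I : Fin n → ℕ // ∑ i, (I i : ℤ) * (2 * ((p : ℤ) ^ ((i : ℕ) + 1) - 1)) = q}
  let e : ({I : Fin n → ℕ // ∑ i, (I i : ℤ) * (2 * ((p : ℤ) ^ ((i : ℕ) + 1) - 1)) = q} → Zloc p)
      ≃+ B.pi q :=
    ((Finsupp.linearEquivFunOnFinite (Zloc p) (Zloc p) _).symm.toAddEquiv).trans f.symm
  have := (hb q).1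
  exact ⟨_, inferInstance, e, (hb q).2.comp_equiv e (AddEquiv.refl _)⟩

/-- A completion of a spectrum with free homotopy groups induces isomorphisms in mod `p` cohomology
(`modp_bijective`). -/
theorem IsPCompletion.modp {B Y : GSp} (hB : B.SBB) (hY : Y.SBB)
    (eB : ∀ q, Nonempty (B.pi q ≃+ BPnPi p n q)) (b : Map B.U Y) (hb : IsPCompletion p b)
    (L : LSp (ZMod p)) :
    Function.Bijective (HC.pre b.toHom : HC Y.U L.toG →+ HC B.U L.toG) := by
  have hp0 : 0 < p := (Fact.out : p.Prime).pos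
  refine modp_bijective b hB hY ?_ ?_ ?_ ?_ L
  · rintro q x ⟨y, hy⟩
    obtain ⟨z, hz⟩ := ((hb q).2 1).1 x ⟨y, by rw [pow_one]; exact hy⟩
    exact ⟨z, by rw [pow_one] at hz; exact hz⟩
  · intro q y
    obtain ⟨x, z, hz⟩ := ((hb q).2 1).2 y
    exact ⟨x, z, by rw [pow_one] at hz; exact hz⟩
  · intro q x hx _
    obtain ⟨ι, _, e, he⟩ := red_coord eB b hb q
    have := (hb q).1
    obtain ⟨y, rfl⟩ := e.surjective x
    have h1 : (b.pi q) (e y) = 0 := by
      refine coord_tf ((b.pi q).comp e.toAddMonoidHom) he p hp0 _ ?_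
      rw [← map_nsmul, ← natCast_zsmul, hx, map_zero]
    have h2 : y = 0 := by
      apply coord_inj ((b.pi q).comp e.toAddMonoidHom) he
      rw [map_zero]
      exact h1
    rw [h2, map_zero]
  · intro q y hy
    obtain ⟨ι, _, e, he⟩ := red_coord eB b hb q
    have := (hb q).1
    have h1 : y = 0 := by
      refine coord_tf ((b.pi q).comp e.toAddMonoidHom) he p hp0 _ ?_
      rw [← natCast_zsmul, hy]
    exact ⟨0, smul_zero _, by rw [map_zero, h1]⟩

/-- The completion of a connective spectrum is connective. -/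
theorem IsPCompletion.connective {B Y : GSp} (hB : Connective B) (b : Map B.U Y)
    (hb : IsPCompletion p b) : Connective Y := by
  intro q hq
  rw [vanish_iff]
  intro y
  have := (hb q).1
  refine eq_zero_of_div (p := p) y fun k => ?_
  obtain ⟨x, z, hz⟩ := ((hb q).2 k).2 y
  refine ⟨z, ?_⟩
  rw [(vanish_iff.1 (hB q hq)) x, map_zero, zero_add] at hz
  exact hz

/-- The theorem for spectra which vanish below a bound, with a common completion `Y`.  PROOF:
`E_out`, `IsCyc.smul`, `IsCyc.push`, `IsCyc.toK`, `YHyp_of`, `exists_lat`, `rat_lift` (with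
`coord_inj`, `coord_div`, `coord_cok`) for `ξ` and `f b`; the lift `h` is bijective on homotopy groups
since `ξ_* h_* = f_* b_*`. -/
theorem main_sbb {B X Y : GSp} (hB0 : B.SBB) (hX0 : X.SBB) (hY0 : Y.SBB) (hB : IsBPn p n B)
    (eX : ∀ q, Nonempty (X.pi q ≃+ BPnPi p n q)) (b : Map B.U Y) (hb : IsPCompletion p b)
    (ξ : Map X.U Y) (hξ : IsPCompletion p ξ) : ∃ h : Map B.U X, h.WE := by
  obtain ⟨hBc, eB, Q, u, hQ, hu⟩ := hB
  obtain ⟨c, hc, ⟨E⟩⟩ := E_out p n Q (fun i => (hQ i).1) (fun i => (hQ i).2)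
  obtain ⟨u', hu'⟩ := (hu.smul c hc).push b (hb.modp hB0 hY0 eB)
  obtain ⟨v, hv, _⟩ := hu'.toK E
  obtain ⟨hY, hr⟩ := YHyp_of hY0 eB b hb
  obtain ⟨f, hf, hr'⟩ := exists_lat E hv hY hr eB eX b hb ξ hξ
  have hξinj : ∀ q, Function.Injective (ξ.pi q) := by
    intro q
    obtain ⟨ι, _, e, he⟩ := red_coord eX ξ hξ q
    have := (hξ q).1
    intro x y hxy
    obtain ⟨x', rfl⟩ := e.surjective x
    obtain ⟨y', rfl⟩ := e.surjective y
    rw [coord_inj ((ξ.pi q).comp e.toAddMonoidHom) he hxy]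
  have hbinj : ∀ q, Function.Injective (b.pi q) := by
    intro q
    obtain ⟨ι, _, e, he⟩ := red_coord eB b hb q
    have := (hb q).1
    intro x y hxy
    obtain ⟨x', rfl⟩ := e.surjective x
    obtain ⟨y', rfl⟩ := e.surjective y
    rw [coord_inj ((b.pi q).comp e.toAddMonoidHom) he hxy]
  obtain ⟨h, hh⟩ := rat_lift hX0 hB0 hY0 ξ (Map.comp f b) hξinj
    (fun q m hm y => by
      obtain ⟨ι, _, e, he⟩ := red_coord eX ξ hξ q
      have := (hξ q).1
      obtain ⟨z, x, hzx⟩ := coord_div ((ξ.pi q).comp e.toAddMonoidHom) he m hm y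
      exact ⟨z, e x, hzx⟩)
    (fun q m hm y x hyx => by
      obtain ⟨ι, _, e, he⟩ := red_coord eX ξ hξ q
      have := (hξ q).1
      obtain ⟨x', hx'⟩ := coord_cok ((ξ.pi q).comp e.toAddMonoidHom) he m hm y (e.symm x) (by
        rw [hyx]
        change ξ.pi q x = ξ.pi q (e (e.symm x))
        rw [e.apply_symm_apply])
      exact ⟨e x', hx'⟩)
    (fun q x => by
      have h1 : f.pi q (b.pi q x) ∈ Set.range (ξ.pi q) := by
        rw [← hr' q]
        exact ⟨x, rfl⟩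
      obtain ⟨y, hy⟩ := h1
      refine ⟨y, ?_⟩
      rw [Map.pi_comp]
      exact hy.symm)
  have hh' : ∀ q x, ξ.pi q (h.pi q x) = f.pi q (b.pi q x) := by
    intro q x
    have h1 := DFunLike.congr_fun (Map.pi_congr hh q) x
    rw [Map.pi_comp, Map.pi_comp] at h1
    exact h1
  refine ⟨h, fun q => ⟨?_, ?_⟩⟩
  · intro x y hxy
    apply hbinj q
    apply (hf q).1
    rw [← hh' q x, ← hh' q y, hxy]
  · intro x
    have h1 : ξ.pi q x ∈ Set.range (fun x : B.pi q => f.pi q (b.pi q x)) := by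
      rw [hr' q]
      exact ⟨x, rfl⟩
    obtain ⟨y, hy⟩ := h1
    refine ⟨y, hξinj q ?_⟩
    rw [hh' q y]
    exact hy

end BPN
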