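import Mathlib

/-!
# Lattices in `p`-adically complete groups (project BPN, module F/Zp)
-/

namespace BPN

/-- The ring `Z_(p)`: rational numbers with denominator prime to `p`. -/
def Zloc (p : ℕ) [Fact p.Prime] : Subring ℚ where
  carrier := {x | ¬ p ∣ x.den}
  one_mem' := by
    have := (Fact.out : p.Prime).one_lt
    simp only [Set.mem_setOf_eq, Rat.den_one]
    intro h
    exact absurd (Nat.le_of_dvd one_pos h) (by omega)
  mul_mem' := by
    intro a b ha hb h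
    have h1 : (a * b).den ∣ a.den * b.den := Rat.mul_den_dvd a b
    rcases (Fact.out : p.Prime).dvd_mul.mp (dvd_trans h h1) with h2 | h2
    · exact ha h2
    · exact hb h2
  zero_mem' := by
    have := (Fact.out : p.Prime).one_lt
    simp only [Set.mem_setOf_eq, Rat.den_zero]
    intro h
    exact absurd (Nat.le_of_dvd one_pos h) (by omega)
  add_mem' := by
    intro a b ha hb h
    have h1 : (a + b).den ∣ a.den * b.den := Rat.add_den_dvd a b
    rcases (Fact.out : p.Prime).dvd_mul.mp (dvd_trans h h1) with h2 | h2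
    · exact ha h2
    · exact hb h2
  neg_mem' := by
    intro a ha
    simpa using ha

variable {p : ℕ} [Fact p.Prime]

/-- `L → A` is a completion: isomorphisms mod `p^k` for all `k`. -/
def IsModIso (p : ℕ) {L A : Type} [AddCommGroup L] [AddCommGroup A] (f : L →+ A) : Prop :=
  ∀ k : ℕ, (∀ x : L, (∃ y : A, f x = (p : ℤ) ^ k • y) → ∃ z : L, x = (p : ℤ) ^ k • z) ∧
    ∀ y : A, ∃ (x : L) (z : A), y = f x + (p : ℤ) ^ k • z

/-! Auxiliary facts. -/

section gen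

variable {R M : Type} [CommRing R] [AddCommGroup M] [Module R M]

private theorem gen_mem (π : R) (k : ℕ) (x : M) :
    x ∈ ((Ideal.span {π} : Ideal R) ^ k • ⊤ : Submodule R M) ↔ ∃ z : M, x = π ^ k • z := by
  rw [Ideal.span_singleton_pow, Submodule.ideal_span_singleton_smul,
    Submodule.mem_smul_pointwise_iff_exists]
  constructor
  · rintro ⟨z, -, rfl⟩
    exact ⟨z, rfl⟩
  · rintro ⟨z, rfl⟩
    exact ⟨z, Submodule.mem_top, rfl⟩

private theorem gen_haus (π : R) (hH : IsHausdorff (Ideal.span {π} : Ideal R) M) {y : M}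
    (h : ∀ k : ℕ, ∃ z : M, y = π ^ k • z) : y = 0 := by
  apply hH.haus y
  intro k
  rw [SModEq.zero, gen_mem]
  exact h k

private theorem gen_prec (π : R) (hP : IsPrecomplete (Ideal.span {π} : Ideal R) M) (f : ℕ → M)
    (h : ∀ k : ℕ, ∃ z : M, f (k + 1) = f k + π ^ k • z) :
    ∃ L : M, ∀ k : ℕ, ∃ z : M, L = f k + π ^ k • z := by
  have h1 : ∀ m n, m ≤ n → ∃ z : M, f n = f m + π ^ m • z := by
    intro m n hmn
    induction n, hmn using Nat.le_induction with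
    | base => exact ⟨0, by rw [smul_zero, add_zero]⟩
    | succ n hmn ih =>
      obtain ⟨z, hz⟩ := ih
      obtain ⟨z', hz'⟩ := h n
      refine ⟨z + π ^ (n - m) • z', ?_⟩
      rw [hz', hz, smul_add, ← mul_smul, ← pow_add, Nat.add_sub_cancel' hmn, add_assoc]
  obtain ⟨L, hL⟩ := hP.prec (f := f) (fun {m n} hmn => by
    rw [SModEq.sub_mem, gen_mem]
    obtain ⟨z, hz⟩ := h1 m n hmn
    exact ⟨-z, by rw [hz, smul_neg]; abel⟩)
  refine ⟨L, fun k => ?_⟩
  have h2 := hL k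
  rw [SModEq.sub_mem, gen_mem] at h2
  obtain ⟨z, hz⟩ := h2
  exact ⟨-z, by rw [smul_neg, ← hz]; abel⟩

end gen

private theorem zp_haus (p : ℕ) [Fact p.Prime] :
    IsHausdorff (Ideal.span {(p : ℤ_[p])} : Ideal ℤ_[p]) ℤ_[p] := by
  rw [← PadicInt.maximalIdeal_eq_span_p]
  infer_instance

private theorem zp_prec (p : ℕ) [Fact p.Prime] :
    IsPrecomplete (Ideal.span {(p : ℤ_[p])} : Ideal ℤ_[p]) ℤ_[p] := by
  rw [← PadicInt.maximalIdeal_eq_span_p]
  infer_instance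

private theorem not_dvd_den {q : ℚ} (hq : ‖(q : ℚ_[p])‖ ≤ 1) : ¬ p ∣ q.den :=
  (Rat.padicValuation_le_one_iff).1 ((Padic.norm_rat_le_one_iff_padicValuation_le_one p).1 hq)

/-- The inclusion of `Z_(p)` in `Z_p`. -/
private noncomputable def zpHom (p : ℕ) [Fact p.Prime] : Zloc p →+* ℤ_[p] where
  toFun a := ⟨((a : ℚ) : ℚ_[p]), Padic.norm_rat_le_one a.2⟩
  map_one' := Subtype.ext (by simp)
  map_mul' a b := Subtype.ext (by simp)
  map_zero' := Subtype.ext (by simp)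
  map_add' a b := Subtype.ext (by simp)

private theorem zpHom_coe (a : Zloc p) : ((zpHom p a : ℤ_[p]) : ℚ_[p]) = ((a : ℚ) : ℚ_[p]) := rfl

private theorem zp_div {k : ℕ} {a : Zloc p} {w : ℤ_[p]} (h : zpHom p a = (p : ℤ_[p]) ^ k * w) :
    ∃ b : Zloc p, a = (p : ℤ) ^ k • b := by
  have hp0 : (p : ℚ) ≠ 0 := by exact_mod_cast (Fact.out : p.Prime).ne_zero
  have hp1 : (p : ℚ_[p]) ≠ 0 := by exact_mod_cast (Fact.out : p.Prime).ne_zero
  have h1 : ((a : ℚ) : ℚ_[p]) = (p : ℚ_[p]) ^ k * (w : ℚ_[p]) := by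
    rw [← zpHom_coe, h]
    push_cast
    rfl
  refine ⟨⟨(a : ℚ) / (p : ℚ) ^ k, ?_⟩, ?_⟩
  · apply not_dvd_den (p := p)
    have h2 : (((a : ℚ) / (p : ℚ) ^ k : ℚ) : ℚ_[p]) = (w : ℚ_[p]) := by
      push_cast
      rw [h1]
      field_simp
    rw [h2]
    exact w.2
  · apply Subtype.ext
    rw [zsmul_eq_mul]
    push_cast
    field_simp

private noncomputable def zpV (p : ℕ) [Fact p.Prime] (ι : Type) :
    (ι → Zloc p) →+ (ι → ℤ_[p]) where
  toFun x i := zpHom p (x i)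
  map_zero' := funext fun _ => map_zero _
  map_add' _ _ := funext fun _ => map_add _ _ _

private theorem zpV_apply {ι : Type} (x : ι → Zloc p) (i : ι) :
    zpV p ι x i = zpHom p (x i) := rfl

private theorem zpV_div {ι : Type} {k : ℕ} {x : ι → Zloc p} {w : ι → ℤ_[p]}
    (h : zpV p ι x = (p : ℤ_[p]) ^ k • w) : ∃ b, x = (p : ℤ) ^ k • b := by
  have h1 : ∀ i, ∃ b : Zloc p, x i = (p : ℤ) ^ k • b := fun i => zp_div (w := w i) (congrFun h i)
  choose b hb using h1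
  exact ⟨b, funext hb⟩

private theorem zpV_pow {ι : Type} (k : ℕ) (x : ι → Zloc p) :
    zpV p ι ((p : ℤ) ^ k • x) = (p : ℤ_[p]) ^ k • zpV p ι x := by
  rw [map_zsmul]
  funext i
  rw [Pi.smul_apply, Pi.smul_apply, zsmul_eq_mul, smul_eq_mul]
  push_cast
  rfl

private theorem appr_ex (u : ℤ_[p]) (k : ℕ) :
    ∃ (n : ℕ) (w : ℤ_[p]), u = (n : ℤ_[p]) + (p : ℤ_[p]) ^ k * w := by
  have h := PadicInt.appr_spec k u
  rw [Ideal.mem_span_singleton] at h
  obtain ⟨w, hw⟩ := h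
  exact ⟨u.appr k, w, by rw [← hw]; ring⟩

section coord

variable {ι : Type} {A : Type} [AddCommGroup A]

/-- The relation between elements of `A` and their coordinates. -/
private def RR (β : (ι → Zloc p) →+ A) (y : A) (u : ι → ℤ_[p]) : Prop :=
  ∀ k : ℕ, ∃ x : ι → Zloc p, (∃ z : A, y = β x + (p : ℤ) ^ k • z) ∧
    ∃ w : ι → ℤ_[p], u = zpV p ι x + (p : ℤ_[p]) ^ k • w

private theorem RR.add {β : (ι → Zloc p) →+ A} {y y' : A} {u u' : ι → ℤ_[p]} (h : RR β y u)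
    (h' : RR β y' u') : RR β (y + y') (u + u') := by
  intro k
  obtain ⟨x, ⟨z, hz⟩, w, hw⟩ := h k
  obtain ⟨x', ⟨z', hz'⟩, w', hw'⟩ := h' k
  refine ⟨x + x', ⟨z + z', ?_⟩, w + w', ?_⟩
  · rw [hz, hz', map_add, smul_add]; abel
  · rw [hw, hw', map_add, smul_add]; abel

private theorem RR.neg {β : (ι → Zloc p) →+ A} {y : A} {u : ι → ℤ_[p]} (h : RR β y u) :
    RR β (-y) (-u) := by
  intro k
  obtain ⟨x, ⟨z, hz⟩, w, hw⟩ := h k
  refine ⟨-x, ⟨-z, ?_⟩, -w, ?_⟩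
  · rw [hz, map_neg, smul_neg]; abel
  · rw [hw, map_neg, smul_neg]; abel

private theorem RR.of_zero_left {β : (ι → Zloc p) →+ A} (hβ : IsModIso p β) {u : ι → ℤ_[p]}
    (h : RR β 0 u) : u = 0 := by
  funext i
  refine gen_haus (p : ℤ_[p]) (zp_haus p) fun k => ?_
  obtain ⟨x, ⟨z, hz⟩, w, hw⟩ := h k
  obtain ⟨b, hb⟩ := (hβ k).1 x ⟨-z, by rw [smul_neg]; exact eq_neg_of_add_eq_zero_left hz.symm⟩
  refine ⟨zpV p ι b i + w i, ?_⟩
  rw [hw, hb, zpV_pow, Pi.add_apply, Pi.smul_apply, Pi.smul_apply, smul_add]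

private theorem RR.of_zero_right [IsAdicComplete (Ideal.span {(p : ℤ)}) A]
    {β : (ι → Zloc p) →+ A} {y : A} (h : RR β y 0) : y = 0 := by
  refine gen_haus (p : ℤ) inferInstance fun k => ?_
  obtain ⟨x, ⟨z, hz⟩, w, hw⟩ := h k
  obtain ⟨b, hb⟩ := zpV_div (x := x) (w := -w)
    (by rw [smul_neg]; exact eq_neg_of_add_eq_zero_left hw.symm)
  exact ⟨β b + z, by rw [hz, hb, map_zsmul, smul_add]⟩

private theorem RR.unique_left {β : (ι → Zloc p) →+ A} (hβ : IsModIso p β) {y : A}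
    {u u' : ι → ℤ_[p]} (h : RR β y u) (h' : RR β y u') : u = u' := by
  have h1 := h.add h'.neg
  rw [add_neg_cancel] at h1
  have h2 := RR.of_zero_left hβ h1
  rwa [← sub_eq_add_neg, sub_eq_zero] at h2

private theorem RR.unique_right [IsAdicComplete (Ideal.span {(p : ℤ)}) A]
    {β : (ι → Zloc p) →+ A} {y y' : A} {u : ι → ℤ_[p]} (h : RR β y u) (h' : RR β y' u) :
    y = y' := by
  have h1 := h.add h'.neg
  rw [add_neg_cancel] at h1
  have h2 := RR.of_zero_right h1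
  rwa [← sub_eq_add_neg, sub_eq_zero] at h2

private theorem RR.exists_right {β : (ι → Zloc p) →+ A} (hβ : IsModIso p β) (y : A) :
    ∃ u : ι → ℤ_[p], RR β y u := by
  choose x z hxz using fun k => (hβ k).2 y
  have h1 : ∀ k, ∃ b, x (k + 1) = x k + (p : ℤ) ^ k • b := by
    intro k
    have h2 : β (x (k + 1) - x k) = (p : ℤ) ^ k • (z k - (p : ℤ) • z (k + 1)) := by
      have h3 := (hxz k).symm.trans (hxz (k + 1))
      rw [map_sub, smul_sub, ← mul_smul, ← pow_succ, sub_eq_sub_iff_add_eq_add, ← h3, add_comm]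
    obtain ⟨b, hb⟩ := (hβ k).1 _ ⟨_, h2⟩
    exact ⟨b, by rw [← hb]; abel⟩
  have h4 : ∀ i, ∃ L : ℤ_[p], ∀ k : ℕ, ∃ z : ℤ_[p], L = zpHom p (x k i) + (p : ℤ_[p]) ^ k • z := by
    intro i
    refine gen_prec (p : ℤ_[p]) (zp_prec p) (fun k => zpHom p (x k i)) fun k => ?_
    obtain ⟨b, hb⟩ := h1 k
    refine ⟨zpHom p (b i), ?_⟩
    have h5 := congrFun (congrArg (zpV p ι) hb) i
    rw [map_add, zpV_pow] at h5
    exact h5
  choose u hu using h4
  refine ⟨u, fun k => ⟨x k, ⟨z k, hxz k⟩, ?_⟩⟩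
  choose w hw using fun i => hu i k
  exact ⟨w, funext hw⟩

private theorem RR.exists_left [IsAdicComplete (Ideal.span {(p : ℤ)}) A]
    (β : (ι → Zloc p) →+ A) (u : ι → ℤ_[p]) : ∃ y : A, RR β y u := by
  choose n w hnw using fun (k : ℕ) (i : ι) => appr_ex (u i) k
  obtain ⟨x, hx⟩ : ∃ x : ℕ → ι → Zloc p, ∀ k i, x k i = (n k i : Zloc p) := ⟨_, fun _ _ => rfl⟩
  have hxu : ∀ k, u = zpV p ι (x k) + (p : ℤ_[p]) ^ k • w k := by
    intro k
    funext i
    rw [Pi.add_apply, zpV_apply, hx, map_natCast]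
    exact hnw k i
  obtain ⟨L, hL⟩ := gen_prec (p : ℤ) (inferInstance : IsPrecomplete (Ideal.span {(p : ℤ)}) A)
    (fun k => β (x k)) (fun k => by
      have h2 : zpV p ι (x (k + 1) - x k) =
          (p : ℤ_[p]) ^ k • (w k - (p : ℤ_[p]) • w (k + 1)) := by
        have h3 := (hxu k).symm.trans (hxu (k + 1))
        rw [map_sub, smul_sub, ← mul_smul, ← pow_succ, sub_eq_sub_iff_add_eq_add, ← h3, add_comm]
      obtain ⟨b, hb⟩ := zpV_div h2
      refine ⟨β b, ?_⟩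
      rw [← map_zsmul, ← map_add, ← hb]
      congr 1
      abel)
  exact ⟨L, fun k => ⟨x k, hL k, w k, hxu k⟩⟩

end coord

/-- **Coordinates**: if `β : Z_(p)^ι → A` is a completion and `A` is `p`-adically complete then
`A ≅ Z_p^ι` compatibly. -/
theorem exists_coord {ι : Type} [Fintype ι] {A : Type} [AddCommGroup A]
    [IsAdicComplete (Ideal.span {(p : ℤ)}) A] (β : (ι → Zloc p) →+ A) (hβ : IsModIso p β) :
    ∃ e : A ≃+ (ι → ℤ_[p]), ∀ x : ι → Zloc p, ∀ i, ((e (β x) i : ℤ_[p]) : ℚ_[p]) =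
      (((x i : Zloc p) : ℚ) : ℚ_[p]) := by
  choose E hE using fun y => RR.exists_right hβ y
  have hadd : ∀ y y', E (y + y') = E y + E y' := fun y y' =>
    RR.unique_left hβ (hE (y + y')) ((hE y).add (hE y'))
  have hbij : Function.Bijective (AddMonoidHom.mk' E hadd) := by
    constructor
    · intro y y' h
      have h1 : E y = E y' := h
      have h2 := hE y
      rw [h1] at h2
      exact RR.unique_right h2 (hE y')
    · intro u
      obtain ⟨y, hy⟩ := RR.exists_left β u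
      exact ⟨y, RR.unique_left hβ (hE y) hy⟩
  refine ⟨AddEquiv.ofBijective (AddMonoidHom.mk' E hadd) hbij, fun x i => ?_⟩
  have h1 : E (β x) = zpV p ι x := RR.unique_left hβ (hE (β x))
    (fun k => ⟨x, ⟨0, by rw [smul_zero, add_zero]⟩, 0, by rw [smul_zero, add_zero]⟩)
  have h2 : (AddEquiv.ofBijective (AddMonoidHom.mk' E hadd) hbij) (β x) = E (β x) := rfl
  rw [h2, h1]
  rfl

/-- Additive maps between `Z_p^ι` are `Z_p`-linear, given by matrices. -/
theorem exists_matrix {ι : Type} [Fintype ι] [DecidableEq ι]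
    (f : (ι → ℤ_[p]) →+ (ι → ℤ_[p])) :
    ∃ M : Matrix ι ι ℤ_[p], ∀ x, f x = M.mulVec x := by
  have hlin : ∀ (c : ℤ_[p]) (x : ι → ℤ_[p]), f (c • x) = c • f x := by
    intro c x
    rw [← sub_eq_zero]
    funext i
    refine gen_haus (p : ℤ_[p]) (zp_haus p) fun k => ?_
    obtain ⟨n, w, hw⟩ := appr_ex c k
    have h1 : c • x = n • x + (p ^ k) • (w • x) := by
      funext j
      rw [Pi.add_apply, Pi.smul_apply, Pi.smul_apply, Pi.smul_apply, Pi.smul_apply, smul_eq_mul,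
        nsmul_eq_mul, nsmul_eq_mul, smul_eq_mul, hw]
      push_cast
      ring
    refine ⟨f (w • x) i - w * f x i, ?_⟩
    rw [h1, map_add, map_nsmul, map_nsmul, Pi.sub_apply, Pi.add_apply, Pi.smul_apply,
      Pi.smul_apply, Pi.smul_apply, nsmul_eq_mul, nsmul_eq_mul, smul_eq_mul, smul_eq_mul]
    nth_rewrite 1 [hw]
    push_cast
    ring
  obtain ⟨L, hL⟩ : ∃ L : (ι → ℤ_[p]) →ₗ[ℤ_[p]] (ι → ℤ_[p]), ∀ x, L x = f x :=
    ⟨{ toFun := f, map_add' := map_add f, map_smul' := hlin }, fun _ => rfl⟩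
  refine ⟨LinearMap.toMatrix' L, fun x => ?_⟩
  rw [← hL, ← Matrix.toLin'_apply, Matrix.toLin'_toMatrix']

private theorem unit_zloc {d : ℤ} (hd : ¬ (p : ℤ) ∣ d) : IsUnit ((d : ℤ) : Zloc p) := by
  have hd0 : (d : ℚ) ≠ 0 := by
    intro h
    have h1 : d = 0 := by exact_mod_cast h
    exact hd (h1 ▸ dvd_zero _)
  have h1 : ‖(d : ℚ_[p])‖ = 1 := by
    refine le_antisymm (Padic.norm_int_le_one d) ?_
    by_contra h
    push Not at h
    exact hd (Padic.norm_intCast_lt_one_iff.1 h)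
  have h2 : ¬ p ∣ ((d : ℚ)⁻¹).den := by
    apply not_dvd_den (p := p)
    push_cast
    rw [norm_inv, h1, inv_one]
  refine IsUnit.of_mul_eq_one (⟨(d : ℚ)⁻¹, h2⟩ : Zloc p) (Subtype.ext ?_)
  push_cast
  exact mul_inv_cancel₀ hd0

/-- **Density**: let `β, γ : Z_(p)^ι → A` be two completions, `φ` an automorphism of `A`.  For every
`N` there is an endomorphism `h` of `A` such that `φ + p^N h` maps the image of `β` onto the image
of `γ`.  PROOF: in coordinates `φ β = Φ ∈ GL(Z_p)` with respect to `γ`; choose an integral matrix `Ψ`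
congruent to `Φ` mod `p^(N+1)`; its determinant is a `p`-adic unit, so `Ψ ∈ GL(Z_(p))`; put
`h = (Ψ - Φ) / p^N`. -/
theorem density {ι : Type} [Fintype ι] {A : Type} [AddCommGroup A]
    [IsAdicComplete (Ideal.span {(p : ℤ)}) A] (β γ : (ι → Zloc p) →+ A) (hβ : IsModIso p β)
    (hγ : IsModIso p γ) (φ : A ≃+ A) (N : ℕ) :
    ∃ h : A →+ A, (fun x => φ (β x) + (p : ℤ) ^ N • h (β x)) '' Set.univ = Set.range γ := by
  classical
  obtain ⟨eβ, heβ⟩ := exists_coord β hβ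
  obtain ⟨eγ, heγ⟩ := exists_coord γ hγ
  have hb : ∀ x, eβ (β x) = zpV p ι x := fun x => funext fun i => Subtype.ext (heβ x i)
  have hg : ∀ x, eγ (γ x) = zpV p ι x := fun x => funext fun i => Subtype.ext (heγ x i)
  obtain ⟨F, hF⟩ : ∃ F : (ι → ℤ_[p]) ≃+ (ι → ℤ_[p]), ∀ a, F (eβ a) = eγ (φ a) :=
    ⟨(eβ.symm.trans φ).trans eγ, fun a => by simp⟩
  obtain ⟨Φ, hΦ⟩ := exists_matrix (p := p) (F : (ι → ℤ_[p]) →+ (ι → ℤ_[p]))
  obtain ⟨Φ', hΦ'⟩ := exists_matrix (p := p) (F.symm : (ι → ℤ_[p]) →+ (ι → ℤ_[p]))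
  have hFF : Φ * Φ' = 1 := by
    apply Matrix.toLin'.injective
    refine LinearMap.ext fun x => ?_
    rw [Matrix.toLin'_apply, ← Matrix.mulVec_mulVec, ← hΦ', ← hΦ, Matrix.toLin'_one]
    exact F.apply_symm_apply x
  have hdet : IsUnit Φ.det := by
    have h1 := congrArg Matrix.det hFF
    rw [Matrix.det_mul, Matrix.det_one] at h1
    exact IsUnit.of_mul_eq_one _ h1
  choose n E hnE using fun (i j : ι) => appr_ex (Φ i j) (N + 1)
  obtain ⟨Ψ₀, hΨ₀⟩ : ∃ Ψ₀ : Matrix ι ι ℤ, ∀ i j, Ψ₀ i j = (n i j : ℤ) :=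
    ⟨Matrix.of fun i j => (n i j : ℤ), fun _ _ => rfl⟩
  have hmod : (PadicInt.toZMod (p := p)).mapMatrix Φ = (Int.castRingHom (ZMod p)).mapMatrix Ψ₀ := by
    ext i j
    simp only [RingHom.mapMatrix_apply, Matrix.map_apply]
    rw [hnE i j, hΨ₀, map_add, map_mul, map_pow, map_natCast, map_natCast, ZMod.natCast_self,
      zero_pow (Nat.succ_ne_zero N), zero_mul, add_zero]
    simp
  have hd : ¬ (p : ℤ) ∣ Ψ₀.det := by
    intro h
    have h1 : IsUnit (PadicInt.toZMod (p := p) Φ.det) := hdet.map _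
    rw [RingHom.map_det, hmod, ← RingHom.map_det] at h1
    apply h1.ne_zero
    rw [eq_intCast, ZMod.intCast_zmod_eq_zero_iff_dvd]
    exact_mod_cast h
  obtain ⟨Ψ, hΨ⟩ : ∃ Ψ : Matrix ι ι (Zloc p), Ψ = (Int.castRingHom (Zloc p)).mapMatrix Ψ₀ :=
    ⟨_, rfl⟩
  have hΨu : IsUnit Ψ.det := by
    rw [hΨ, ← RingHom.map_det, eq_intCast]
    exact unit_zloc hd
  obtain ⟨h, hh⟩ : ∃ h : A →+ A, ∀ a, eγ (h a) =
      (Matrix.of fun i j => -((p : ℤ_[p]) * E i j)).mulVec (eβ a) :=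
    ⟨(eγ.symm : (ι → ℤ_[p]) →+ A).comp
      ((Matrix.mulVecLin (Matrix.of fun i j => -((p : ℤ_[p]) * E i j))).toAddMonoidHom.comp
        (eβ : A →+ (ι → ℤ_[p]))), fun a => by simp⟩
  have key : ∀ x, φ (β x) + (p : ℤ) ^ N • h (β x) = γ (Ψ.mulVec x) := by
    intro x
    apply eγ.injective
    rw [map_add, map_zsmul, hh, ← hF, hb, hg]
    have h1 : F (zpV p ι x) = Φ.mulVec (zpV p ι x) := hΦ _
    rw [h1]
    funext i
    rw [Pi.add_apply, Pi.smul_apply, zpV_apply]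
    simp only [Matrix.mulVec, dotProduct, Matrix.of_apply]
    rw [map_sum, zsmul_eq_mul, Finset.mul_sum, ← Finset.sum_add_distrib]
    refine Finset.sum_congr rfl fun j _ => ?_
    rw [map_mul, hnE i j, hΨ, zpV_apply]
    simp only [RingHom.mapMatrix_apply, Matrix.map_apply]
    rw [hΨ₀]
    push_cast
    simp only [map_natCast]
    ring
  refine ⟨h, ?_⟩
  rw [Set.image_univ]
  ext a
  constructor
  · rintro ⟨x, rfl⟩
    exact ⟨Ψ.mulVec x, (key x).symm⟩
  · rintro ⟨z, rfl⟩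
    refine ⟨Ψ⁻¹.mulVec z, ?_⟩
    change φ (β _) + (p : ℤ) ^ N • h (β _) = _
    rw [key, Matrix.mulVec_mulVec, Matrix.mul_nonsing_inv _ hΨu, Matrix.one_mulVec]

end BPN
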